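import Pool.Agent.N179.SA.Hodge

/-!
# The standard conjecture of Hodge type on products with independent factors: definitions
-/

set_option autoImplicit false

universe u

namespace Pool.Agent.H24IF

/-- The action `ρ` on the algebra `A` preserves the kernel of the linear form `τ`. -/
def KerStable {K : Type} [Field K] {A : Type} [Ring A] [Algebra K A] {Γ : Type} [Group Γ]
    (τ : A →ₗ[K] K) (ρ : Γ →* (A ≃ₐ[K] A)) : Prop := ∀ g x, τ x = 0 → τ (ρ g x) = 0

open Pool.Agent.TH125.Gal Pool.Agent.N179.GR.S Pool.Agent.N179.SA
open Pool.Agent.H914 Pool.Agent.H914.WeilCohomology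

variable {k : Type u} [Field k] {𝒱 : VarClass k} {ops : CycleOps 𝒱}
  {W : WeilCohomology.{u, 0} ops} {Γ : Type} [Group Γ]

/-- The degree of the top self-intersection of the divisor is positive (as for an ample divisor). -/
def PosDeg (Z : PVar W Γ) : Prop :=
  0 < Z.var.X.V.degCycle (divPow ops Z.D Z.var.X.dim Z.var.X.V.fundCycle)

/-- The semi-invariant classes of `P` are linear combinations of classes of algebraic cycles (a form
of the Tate conjecture for `P`). -/
def SemiAlgebraic (P : GVar W Γ) : Prop :=
  ∀ x : (coh P).V, SemiInv x → (span (M := coh P) {y | ∃ j, y ∈ algClasses W P.X j}).Has x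

/-- Homological and numerical equivalence are the same on `X`. -/
def HomNum (W : WeilCohomology.{u, 0} ops) (X : 𝒱.Obj) : Prop :=
  ∀ j ≤ X.dim, ∀ z, X.IsCyc j z →
    (∀ w, X.IsCyc (X.dim - j) w → X.V.degCycle (ops.mul z w) = 0) → W.cl X z = 0

/-- The factor `P`: its divisor satisfies the hard Lefschetz theorem and has a positive degree, its
semi-invariant classes are combinations of classes of algebraic cycles, and homological and
numerical equivalence are the same on `P`. -/
def Fac (P : PVar W Γ) : Prop := Lef P ∧ PosDeg P ∧ SemiAlgebraic P.var ∧ HomNum W P.var.X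

/-- The classes of the cycles on `Y` are semi-invariant (in the intended use the cycles on `Y` are
defined over finite extensions of the base field, and their classes are potential Tate classes). -/
def CyclesSemi (Y : GVar W Γ) : Prop := ∀ j, ∀ x ∈ algClasses W Y.X j, SemiInv (M := coh Y) x

/-- The class of the cycle `C` is zero. -/
def ZeroClass (W : WeilCohomology.{u, 0} ops) {X : 𝒱.Obj} (C : X.Cycles) : Prop := W.cl X C = 0

/-- The standard conjecture of Hodge type is true for `Y` **if and only if** it is true for `Z` and
for all factors `P_a`. -/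
def HodgeIff {ι : Type} (Z : PVar W Γ) (L : List (ι × PVar W Γ)) (Y : PVar W Γ) : Prop :=
  HodgeType W Y.var.X Y.D ↔ HodgeType W Z.var.X Z.D ∧ ∀ x ∈ L, HodgeType W x.2.var.X x.2.D

/-- The standard conjecture of Hodge type on the towers `Y` over `Z` without indices in `E`.

* It is true for `Y` and the sum of the divisors if and only if it is true for `Z` and for all factors
  `P_a`.
* For **every** divisor `C` on `Y` with the hard Lefschetz theorem there are divisors `B` on `Z` and
  `D_a` on the factors with the hard Lefschetz theorem, such that the class of `C` is the class of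
  the sum `C'` of the inverse images; and if the degrees of these divisors are positive, then the
  conjecture is true for `(Y, C)` if and only if it is true for `(Z, B)` and for all `(P_a, D_a)`. -/
def HodgeSplits {ι : Type} (V : ι → GRep W.K Γ) (Z : PVar W Γ) (E : Set ι) : Prop :=
  ∀ (L : List (ι × PVar W Γ)) (Y : PVar W Γ), PTower V Z L Y →
    (∀ x ∈ L, x.1 ∉ E ∧ Fac x.2) → CyclesSemi Y.var →
      HodgeIff Z L Y ∧ ∀ C, Lef ⟨Y.var, C⟩ → ∃ (B : Z.var.X.Cycles) (L' : List (ι × PVar W Γ))
        (C' : Y.var.X.Cycles), PTower V ⟨Z.var, B⟩ L' ⟨Y.var, C'⟩ ∧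
          L'.map (fun x => (x.1, x.2.var)) = L.map (fun x => (x.1, x.2.var)) ∧
          Lef ⟨Z.var, B⟩ ∧ (∀ x ∈ L', Lef x.2) ∧ ZeroClass W (C - C') ∧
          (PosDeg (⟨Z.var, B⟩ : PVar W Γ) → (∀ x ∈ L', PosDeg x.2) →
            HodgeIff ⟨Z.var, B⟩ L' ⟨Y.var, C⟩)

/-- The action on the cohomology preserves the kernel of the trace (so that the trace is
multiplied by a character). -/
def TraceSemi (Z : GVar W Γ) : Prop := KerStable (W.tr Z.X) Z.act

/-- `E U` is the set of the exceptional indices with respect to the representation `U`: it is
finite; no `j ≠ i` is exceptional with respect to `V i`; for every variety `Z`, the number of the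
exceptional indices with respect to the cohomology of `Z` is at most one half of `b - b'`, where `b`
is the sum of the Betti numbers and `b'` is the dimension of the span of the semi-invariant classes;
and if `Z` is generated by finitely many representations `U a` (for instance by its own cohomology),
and `D` is a divisor on `Z` of positive degree with the hard Lefschetz theorem, then the standard
conjecture of Hodge type on the towers over `Z` without indices in the union of the `E (U a)` splits
(`HodgeSplits`). -/
structure Exceptions {ι : Type} (V : ι → GRep W.K Γ) (E : GRep W.K Γ → Set ι) : Prop where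
  finite : ∀ U, (E U).Finite
  self : ∀ i, E (V i) ⊆ {i}
  variety : ∀ Z : GVar W Γ, TraceSemi Z →
    2 * (E (coh Z)).ncard + (semiSpan (coh Z)).dim ≤ dim (coh Z)
  holds : ∀ (m : ℕ) (U : Fin m → GRep W.K Γ) (Z : PVar W Γ), GeneratedBy U Z.var → Lef Z →
    PosDeg Z → HodgeSplits V Z (⋃ a, E (U a))

end Pool.Agent.H24IF
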