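import Pool.Agent.N179.SA.Fin
import Pool.Agent.H24IF.Defs
import Pool.Agent.H24HS.Sup

/-!
# The standard conjecture of Hodge type on products with independent factors
-/

set_option autoImplicit false
set_option linter.unusedSectionVars false

open CategoryTheory AlgebraicGeometry

universe u

namespace Pool.Agent.H24IF

open Module Pool.Agent.TH125.Gal Pool.Agent.N179.GR Pool.Agent.N179.GR.S Pool.Agent.N179.SD
  Pool.Agent.N179.SA

open Pool.Agent.H914 Pool.Agent.H914.VarClass Pool.Agent.H914.VarClass.Obj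
  Pool.Agent.H914.WeilCohomology Pool.Agent.W552 Pool.Agent.H281R3.HT Pool.Agent.TH132.A
  Pool.Agent.H24HS

variable {k : Type u} [Field k] {𝒱 : VarClass k} {ops : CycleOps 𝒱}
  {W : WeilCohomology.{u, 0} ops} {Γ : Type} [Group Γ]

lemma posDeg_of_bf {X : 𝒱.Obj} {D : X.Cycles} {f : Module.End W.K (W.H X)} (tf : Lw W X D f)
    {q : ℚ} (hq : 0 < q) (h : bf W X D f 1 1 = q) :
    0 < X.V.degCycle (divPow ops D X.dim X.V.fundCycle) := by
  have hp : W.cl X (divPow ops D (X.dim - 2 * 0 + 1) X.V.fundCycle) = 0 := by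
    rw [cl_divPow, W.cl_fund]
    exact e_pow_zero tf.hD (i := 0) (by omega) (W.one_mem X)
  have h1 := tf.form_prim (j := 0) (by omega) X.V.fundCycle_mem hp
  rw [W.cl_fund, h] at h1
  have hf : X.IsCyc 0 X.V.fundCycle := X.V.fundCycle_mem
  have hn := divPow_mem (ops := ops) tf.hD X.dim hf
  rw [zero_add] at hn
  have h3 := ops.mul_mem hf hn
  rw [zero_add] at h3
  have h4 : ((X.V.degCycle (ops.mul X.V.fundCycle (divPow ops D X.dim X.V.fundCycle)) : ℚ) :
      W.K) = ((X.V.degCycle (divPow ops D X.dim X.V.fundCycle) : ℚ) : W.K) := by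
    rw [← W.tr_cl h3, ← W.tr_cl hn, W.cl_mul, W.cl_fund, one_mul]
  have h5 := Rat.cast_injective (α := W.K) h4
  have h6 := Rat.cast_injective (α := W.K) h1
  rw [pow_zero, one_mul, mul_zero, Nat.sub_zero, h5] at h6
  rw [h6] at hq
  exact pos_of_mul_pos_right hq (by positivity)

theorem PosDeg.prod {P Y : PVar W Γ} (hP : Lef P) (hY : Lef Y) (hPp : PosDeg P)
    (hYp : PosDeg Y) (υ : Acts P.var Y.var) : PosDeg (prodP P Y υ) := by
  obtain ⟨f, F, -⟩ := exists_lw hP.div hP.hard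
  obtain ⟨g, G, -⟩ := exists_lw hY.div hY.hard
  obtain ⟨q, hq, hq'⟩ := bf_one_of_deg F hPp
  obtain ⟨r, hr, hr'⟩ := bf_one_of_deg G hYp
  have h1 := F.bf_ext G (1 : W.H P.var.X) 1 (1 : W.H Y.var.X) 1
  rw [hq', hr', ← Rat.cast_mul] at h1
  have h2 : H281R3.HT.ext W (1 : W.H P.var.X) (1 : W.H Y.var.X) = 1 := by
    rw [H281R3.HT.ext, map_one, map_one, one_mul]
  rw [h2] at h1
  exact posDeg_of_bf (F.prod G) (mul_pos hq hr) h1

theorem PTower.posDeg {ι : Type} {V : ι → GRep W.K Γ} {Z : PVar W Γ} {L : List (ι × PVar W Γ)}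
    {Y : PVar W Γ} (h : PTower V Z L Y) (hZ : Lef Z) (hZp : PosDeg Z) :
    (∀ x ∈ L, Lef x.2) → (∀ x ∈ L, PosDeg x.2) → PosDeg Y := by
  induction h with
  | base => exact fun _ _ => hZp
  | @step L Y i P υ hT hi hP hυ ih =>
    intro hL hLp
    exact PosDeg.prod (hL (i, P) List.mem_cons_self)
      (Pool.Agent.N179.SA.PTower.lef hT hZ fun x hx => hL x (List.mem_cons_of_mem _ hx))
      (hLp (i, P) List.mem_cons_self)
      (ih (fun x hx => hL x (List.mem_cons_of_mem _ hx))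
        fun x hx => hLp x (List.mem_cons_of_mem _ hx)) υ

lemma PosDeg.one_ne {Z : PVar W Γ} (hD : Z.var.X.IsCyc 1 Z.D) (h : PosDeg Z) :
    (1 : W.H Z.var.X) ≠ 0 := by
  intro h0
  have hn := divPow_mem (ops := ops) hD Z.var.X.dim Z.var.X.V.fundCycle_mem
  rw [zero_add] at hn
  have h2 := W.tr_cl hn
  rw [← one_mul (W.cl Z.var.X _), h0, zero_mul, map_zero] at h2
  exact h.ne (by exact_mod_cast h2)

theorem PTower.zero {ι : Type} {V : ι → GRep W.K Γ} {Z : PVar W Γ} {L : List (ι × PVar W Γ)}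
    {Y : PVar W Γ} (h : PTower V Z L Y) (hZ : (1 : W.H Z.var.X) = 0) :
    ∀ x : W.H Y.var.X, x = 0 := by
  induction h with
  | base => exact fun x => by rw [← one_mul x, hZ, zero_mul]
  | @step L Y i P υ hT hi hP hυ ih =>
    intro x
    change W.H (P.var.X.prod Y.var.X) at x
    have h1 : (1 : W.H (P.var.X.prod Y.var.X)) = 0 := by
      rw [← map_one (W.map (snd P.var.X Y.var.X)), ih 1, map_zero]
    change x = (0 : W.H (P.var.X.prod Y.var.X))
    rw [← one_mul x, h1, zero_mul]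

/-- The conjecture depends only on the class of the divisor. -/
lemma hodge_congr {X : 𝒱.Obj} {C C' : X.Cycles} (hC : X.IsCyc 1 C) (hC' : X.IsCyc 1 C')
    (h : W.cl X C = W.cl X C') : HodgeType W X C ↔ HodgeType W X C' := by
  have key : ∀ {C C' : X.Cycles}, X.IsCyc 1 C → X.IsCyc 1 C' → W.cl X C = W.cl X C' →
      HodgeType W X C → HodgeType W X C' := by
    intro C C' hC hC' h
    exact hodge_of_iso (P := ⟨X, C⟩) (Q := ⟨X, C'⟩) hC hC' (𝟙 X) rfl
      (fun a => by rw [W.map_id]) (by rw [W.map_id]; exact h)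
  exact ⟨key hC hC' h, key hC' hC h.symm⟩

/-- the cycles on the second factor -/
theorem semi_snd {P Y : GVar W Γ} {υ : Acts P Y} (hυ : ProdAct P Y υ)
    (h1 : (1 : W.H P.X) ≠ 0) (hd : CyclesSemi (prodVar P Y υ)) : CyclesSemi Y := by
  intro j c hc
  obtain ⟨Δ, hΔ, hg⟩ := hd j _ (alg_map (snd P.X Y.X) hc)
  refine ⟨Δ, hΔ, fun g hg' => ?_⟩
  obtain ⟨a, ha⟩ := hg g hg'
  refine ⟨a, ?_⟩
  have h2 : (prodVar P Y υ).act g (W.map (snd P.X Y.X) c) = a • W.map (snd P.X Y.X) c := ha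
  have h3 : W.map (snd P.X Y.X) (Y.act g c - a • c) = 0 := by
    rw [map_sub, map_smul, sub_eq_zero, ← hυ.2]
    exact h2
  have h4 : H281R3.HT.ext W (1 : W.H P.X) (Y.act g c - a • c) = 0 := by
    rw [H281R3.HT.ext, map_one, one_mul, h3]
  exact sub_eq_zero.1 (one_ext_inj h1 h4)

/-- **The cycles split.** -/
theorem split {P : PVar W Γ} {Y : GVar W Γ} {υ : Acts P.var Y}
    (halg : SemiAlgebraic P.var)
    (hnum : HomEqNum W P.var.X) (hd : CyclesSemi (prodVar P.var Y υ))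
    (hsl : ∀ z, (full (W.H (P.var.X.prod Y.X)) (algR υ)).Eig z → ∀ ψ,
      ctr2 ψ z ∈ Submodule.span W.K {y | (full (W.H P.var.X) (algR P.var.act)).Eig y})
    (z : W.H (P.var.X.prod Y.X)) (hz : AS W (P.var.X.prod Y.X) z) :
    z ∈ tens W P.var.X Y.X := by
  refine mem_tens hnum hz ?_
  refine AS.ind (p := fun z => z ∈ Submodule.span W.K
    {w | ∃ x y, AS W P.var.X x ∧ w = H281R3.HT.ext W x y})
    ?_ (fun x y hx hy => Submodule.add_mem _ hx hy) hz
  intro j z hz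
  refine mem_span_of_slices fun ψ => ?_
  have h1 := hsl z (hd j z hz) ψ
  refine (Submodule.span_le.2 fun y hy => ?_) h1
  have h2 := halg y hy
  refine (Submodule.span_mono ?_) h2
  rintro x ⟨j, hx⟩
  exact AS.of hx

section

variable [IsAlgClosed W.K] {ι : Type} {V : ι → GRep W.K Γ} {Z : PVar W Γ}
    {L : List (ι × PVar W Γ)} {Y : PVar W Γ} {m : ℕ} {E : Set ι}
    {U : Fin m → GRep W.K Γ} (hU : ∀ i ∉ E, ∀ a, Spl (fl (V i)) {fl (U a)})
    (hV : ∀ i ∉ E, ∀ j ∉ E, j ≠ i → Spl (fl (V i)) {fl (V j)})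
    (hZ : GeneratedBy U Z.var)

/-- The algebraic part of the conditions on a factor. -/
def FacA (P : GVar W Γ) : Prop :=
  (1 : W.H P.X) ≠ 0 ∧
  SemiAlgebraic P ∧ HomEqNum W P.X

include hU hV hZ in
/-- the cycles split at each step -/
theorem step_split' {i : ι} {P : PVar W Γ} {υ : Acts P.var Y.var} (hT : PTower V Z L Y)
    (hi : ∀ x ∈ L, x.1 ≠ i) (hP : OfType (V i) P.var) (hυ : ProdAct P.var Y.var υ) (hiE : i ∉ E)
    (hL : ∀ x ∈ L, x.1 ∉ E) (hF : FacA P.var) (hd : CyclesSemi (prodVar P.var Y.var υ)) :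
    ∀ z, AS W (P.var.X.prod Y.var.X) z → z ∈ tens W P.var.X Y.var.X :=
  split hF.2.1 hF.2.2 hd fun z hz ψ => Pool.Agent.N179.SP.slices hZ hT.tower (i := i) (hU i hiE)
    (fun x hx => by
      obtain ⟨y, hy, rfl⟩ := List.mem_map.1 hx
      exact hV i hiE y.1 (hL y hy) (hi y hy)) hP hυ hz ψ

include hU hV hZ in
theorem tower_hodge_iff (hY : PTower V Z L Y) (hZL : Lef Z) (hZp : PosDeg Z) :
    (∀ x ∈ L, x.1 ∉ E ∧ FacA x.2.var ∧ Lef x.2) → (∀ x ∈ L, PosDeg x.2) →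
    CyclesSemi Y.var → HodgeIff Z L Y := by
  induction hY with
  | base => exact fun _ _ _ => ⟨fun h => ⟨h, fun x hx => absurd hx List.not_mem_nil⟩,
      fun h => h.1⟩
  | @step L Y i P υ hT hi hP hυ ih =>
    intro hL hLp hd
    have hL' : ∀ x ∈ L, x.1 ∉ E ∧ FacA x.2.var ∧ Lef x.2 :=
      fun x hx => hL x (List.mem_cons_of_mem _ hx)
    have hLp' : ∀ x ∈ L, PosDeg x.2 := fun x hx => hLp x (List.mem_cons_of_mem _ hx)
    have hPL := hL (i, P) List.mem_cons_self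
    have hPp := hLp (i, P) List.mem_cons_self
    have h1 := hPL.2.1.1
    have hYL : Lef Y := Pool.Agent.N179.SA.PTower.lef hT hZL fun x hx => (hL' x hx).2.2
    have hYp : PosDeg Y := PTower.posDeg hT hZL hZp (fun x hx => (hL' x hx).2.2) hLp'
    have hS := step_split' hU hV hZ hT hi hP hυ hPL.1 (fun x hx => (hL' x hx).1) hPL.2.1 hd
    obtain ⟨f, F, hf⟩ := exists_lw hPL.2.2.div hPL.2.2.hard
    obtain ⟨g, G, hg⟩ := exists_lw hYL.div hYL.hard
    have hst : Stable W P.var.X f := stable_of_lefschetzA F.hD F.sl2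
      (lefschetzA_of_D F.hD F.hl hPL.2.1.2.2)
    have hIH := ih hL' hLp' (semi_snd hυ h1 hd)
    constructor
    · intro h
      have hY' : HodgeType W Y.var.X Y.D := hodge_of_prod' F G hPp h
      have hP' : HodgeType W P.var.X P.D := hodge_of_prod' G F hYp
        (hodge_swap (P := ⟨P.var.X, P.D⟩) (Q := ⟨Y.var.X, Y.D⟩) hPL.2.2.div hYL.div h)
      have h3 := hIH.1 hY'
      refine ⟨h3.1, fun x hx => ?_⟩
      rcases List.mem_cons.1 hx with rfl | hx
      · exact hP'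
      · exact h3.2 x hx
    · rintro ⟨hZH, hLH⟩
      exact hodge_prod_of hS F hf F.hl hst (hLH (i, P) List.mem_cons_self) G hg
        (hIH.2 ⟨hZH, fun x hx => hLH x (List.mem_cons_of_mem _ hx)⟩)

include hU hV hZ in
theorem tower_div (hY : PTower V Z L Y) (hZ1 : (1 : W.H Z.var.X) ≠ 0) :
    (∀ x ∈ L, x.1 ∉ E ∧ FacA x.2.var) → CyclesSemi Y.var →
    (1 : W.H Y.var.X) ≠ 0 ∧ ∀ C, Y.var.X.IsCyc 1 C → HardLefschetz W Y.var.X C →
        ∃ (B : Z.var.X.Cycles) (L' : List (ι × PVar W Γ)) (C' : Y.var.X.Cycles),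
          PTower V ⟨Z.var, B⟩ L' ⟨Y.var, C'⟩ ∧
          L'.map (fun x => (x.1, x.2.var)) = L.map (fun x => (x.1, x.2.var)) ∧
          Lef ⟨Z.var, B⟩ ∧ (∀ x ∈ L', Lef x.2) ∧ W.cl _ C = W.cl _ C' := by
  induction hY with
  | base =>
    intro _ _
    exact ⟨hZ1, fun C hC hC' => ⟨C, [], C, PTower.base, rfl, ⟨hC, hC'⟩,
      fun x hx => absurd hx List.not_mem_nil, rfl⟩⟩
  | @step L Y i P υ hT hi hP hυ ih =>
    intro hL hd
    have hL' : ∀ x ∈ L, x.1 ∉ E ∧ FacA x.2.var :=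
      fun x hx => hL x (List.mem_cons_of_mem _ hx)
    have hPL := hL (i, P) List.mem_cons_self
    have h1 := hPL.2.1
    obtain ⟨hY1, hIH⟩ := ih hL' (semi_snd hυ h1 hd)
    have hS := step_split' hU hV hZ hT hi hP hυ hPL.1 (fun x hx => (hL' x hx).1) hPL.2 hd
    have hone : (1 : W.H (P.var.X.prod Y.var.X)) ≠ 0 := by
      intro h0
      have h2 : H281R3.HT.ext W (1 : W.H P.var.X) (1 : W.H Y.var.X) = 0 := by
        rw [H281R3.HT.ext, map_one, map_one, one_mul, h0]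
      exact hY1 (one_ext_inj h1 h2)
    refine ⟨hone, fun C hC hC' => ?_⟩
    obtain ⟨-, hsum, hall⟩ := TH121.KT.lefschetz_of_tens hPL.2.2.2 hS
    obtain ⟨D, B, hDB⟩ := hsum C hC
    have h1' : ¬ HomEq W (P.var.X.prod Y.var.X).V.fundCycle 0 := by
      rw [HomEq, W.cl_fund, map_zero]
      exact hone
    obtain ⟨hDL, hBL, -⟩ := hall h1' C D B hC hDB hC'
    obtain ⟨BZ, L', B', hT', hmap, hZL, hLL, hBB⟩ := hIH B hDB.2.1 hBL
    refine ⟨BZ, (i, ⟨P.var, D⟩) :: L', sumCyc ops D B', ?_, ?_, hZL, ?_, ?_⟩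
    · have hi' : ∀ x ∈ L', x.1 ≠ i := by
        intro x hx
        have h3 : (x.1, x.2.var) ∈ L'.map (fun x => (x.1, x.2.var)) := List.mem_map.2 ⟨x, hx, rfl⟩
        rw [hmap] at h3
        obtain ⟨y, hy, hxy⟩ := List.mem_map.1 h3
        have h4 : y.1 = x.1 := (Prod.mk.inj hxy).1
        rw [← h4]
        exact hi y hy
      exact PTower.step (Y := ⟨Y.var, B'⟩) i ⟨P.var, D⟩ υ hT' hi' hP hυ
    · rw [List.map_cons, List.map_cons, hmap]
    · intro x hx
      rcases List.mem_cons.1 hx with rfl | hx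
      · exact ⟨hDB.1, hDL⟩
      · exact hLL x hx
    · have h3 : W.cl (P.var.X.prod Y.var.X) C = W.cl (P.var.X.prod Y.var.X)
        (ops.pull (fst P.var.X Y.var.X) D + ops.pull (snd P.var.X Y.var.X) B) := hDB.2.2
      have h4 : W.cl Y.var.X B = W.cl Y.var.X B' := hBB
      change W.cl (P.var.X.prod Y.var.X) C = W.cl (P.var.X.prod Y.var.X)
        (ops.pull (fst P.var.X Y.var.X) D + ops.pull (snd P.var.X Y.var.X) B')
      rw [h3, map_add, W.cl_pull, W.cl_pull, map_add, W.cl_pull, W.cl_pull, h4]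

end

/-- The trace is multiplied by a character. -/
theorem exists_char {Z : GVar W Γ} (h : TraceSemi Z) :
    ∃ μ : Γ →* W.Kˣ, ∀ g x, W.tr Z.X (Z.act g x) = (μ g : W.K) * W.tr Z.X x := by
  by_cases h0 : ∃ x, W.tr Z.X x ≠ 0
  · obtain ⟨x, hx⟩ := h0
    set x0 := (W.tr Z.X x)⁻¹ • x with hx0
    have h1 : W.tr Z.X x0 = 1 := by rw [hx0, map_smul, smul_eq_mul, inv_mul_cancel₀ hx]
    have h2 : ∀ g x, W.tr Z.X (Z.act g x) = W.tr Z.X (Z.act g x0) * W.tr Z.X x := by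
      intro g x
      have h3 : W.tr Z.X (x - W.tr Z.X x • x0) = 0 := by
        rw [map_sub, map_smul, h1, smul_eq_mul, mul_one, sub_self]
      have h4 : W.tr Z.X (Z.act g (x - W.tr Z.X x • x0)) = 0 := h g _ h3
      rw [map_sub, map_smul, map_sub, map_smul, smul_eq_mul, sub_eq_zero] at h4
      rw [h4, mul_comm]
    let μ : Γ →* W.K :=
      { toFun := fun g => W.tr Z.X (Z.act g x0)
        map_one' := by rw [map_one]; exact h1
        map_mul' := fun g g' => by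
          rw [map_mul]
          exact h2 g _ }
    exact ⟨μ.toHomUnits, fun g x => h2 g x⟩
  · push Not at h0
    exact ⟨1, fun g x => by rw [h0, h0, mul_zero]⟩

/-- **The standard conjecture of Hodge type.** -/
theorem final_hodge_splits (hK : Nonempty (W.K ≃+* ℂ)) {ι : Type}
    {V : ι → GRep W.K Γ} (hV : Family V) : ∃ E : GRep W.K Γ → Set ι, Exceptions V E := by
  obtain ⟨e⟩ := hK
  have halg : IsAlgClosed W.K := IsAlgClosed.of_ringEquiv ℂ W.K e.symm
  refine ⟨Exc V, fun U => (exceptional e hV U).finite, ?_, ?_, fun m U Z hZ hL => ?_⟩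
  · intro j i hi
    by_contra h
    exact hi (hV.pair h)
  · intro Z hZ
    obtain ⟨μ, hμ⟩ := exists_char hZ
    refine (exceptional e hV (coh Z)).card_form
      ⟨(LinearMap.mul W.K (W.H Z.X)).compr₂ (W.tr Z.X), fun x hx => W.nondeg x fun y => hx y,
        μ, fun g (x y : W.H Z.X) => ?_⟩
    have h1 := hμ g (x * y)
    rw [map_mul] at h1
    exact h1
  have hU : ∀ i ∉ ⋃ a, Exc V (U a), ∀ a, Spl (fl (V i)) {fl (U a)} := fun i hi a => by
    by_contra h
    exact hi (Set.mem_iUnion.2 ⟨a, h⟩)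
  have hV' : ∀ i ∉ ⋃ a, Exc V (U a), ∀ j ∉ ⋃ a, Exc V (U a), j ≠ i →
      Spl (fl (V i)) {fl (V j)} := fun i _ j _ hij => hV.pair hij.symm
  intro hZp L Y hY hx hd
  have hZ1 := PosDeg.one_ne hL.div hZp
  have hF : ∀ x ∈ L, FacA x.2.var := fun x h =>
    ⟨PosDeg.one_ne (hx x h).2.1.div (hx x h).2.2.1, (hx x h).2.2.2.1, (hx x h).2.2.2.2⟩
  refine ⟨tower_hodge_iff hU hV' hZ hY hL hZp (fun x h => ⟨(hx x h).1, hF x h, (hx x h).2.1⟩)
    (fun x h => (hx x h).2.2.1) hd, fun C hC => ?_⟩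
  obtain ⟨B, L', C', hT', hmap, hBL, hLL, hCC⟩ := (tower_div hU hV' hZ hY hZ1
    (fun x h => ⟨(hx x h).1, hF x h⟩) hd).2 C hC.div hC.hard
  refine ⟨B, L', C', hT', hmap, hBL, hLL, ?_, fun hBp hLp => ?_⟩
  · rw [ZeroClass, map_sub, hCC, sub_self]
  have hCc : Y.var.X.IsCyc 1 C' := (Pool.Agent.N179.SA.PTower.lef hT' hBL hLL).div
  refine (hodge_congr hC.div hCc hCC).trans ?_
  refine tower_hodge_iff hU hV' (Z := ⟨Z.var, B⟩) hZ hT' hBL hBp ?_ hLp hd
  intro x hx'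
  have h3 : (x.1, x.2.var) ∈ L'.map (fun x => (x.1, x.2.var)) := List.mem_map.2 ⟨x, hx', rfl⟩
  rw [hmap] at h3
  obtain ⟨y, hy, hxy⟩ := List.mem_map.1 h3
  obtain ⟨h4, h5⟩ := Prod.mk.inj hxy
  have h6 : FacA y.2.var := hF y hy
  exact ⟨h4 ▸ (hx y hy).1, h5 ▸ h6, hLL x hx'⟩

end Pool.Agent.H24IF
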